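import Pool.Agent.Lib.MP_b9b22b_co.Lin.Base

/-!
TEMPL: the signed Johnson graphs. `D q` is the boundary matrix of the simplex with `q` vertices,
indexed by 0-1 vectors; it satisfies `D D = 0` and `D Dᵀ + Dᵀ D = q`.
-/

set_option autoImplicit false

namespace Pool.Agent.Lib.MP_b9b22b_co.Lin.H82

open Finset

/-- 0-1 vectors of length `q` -/
def V : ℕ → Type
  | 0 => Unit
  | q + 1 => Bool × V q

instance instDecV : ∀ q, DecidableEq (V q)
  | 0 => inferInstanceAs (DecidableEq Unit)
  | q + 1 =>
    have : DecidableEq (V q) := instDecV q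
    inferInstanceAs (DecidableEq (Bool × V q))

instance instFinV : ∀ q, Fintype (V q)
  | 0 => inferInstanceAs (Fintype Unit)
  | q + 1 =>
    have : Fintype (V q) := instFinV q
    inferInstanceAs (Fintype (Bool × V q))

/-- weight -/
def wt : ∀ q, V q → ℕ
  | 0, _ => 0
  | q + 1, x => (if x.1 then 1 else 0) + wt q x.2

/-- boundary matrix -/
def D : ∀ q, V q → V q → ℤ
  | 0, _, _ => 0
  | q + 1, x, y =>
    match x.1, y.1 with
    | false, false => D q x.2 y.2
    | true, true => - D q x.2 y.2
    | true, false => if x.2 = y.2 then 1 else 0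
    | false, true => 0

theorem D_ff (q : ℕ) (u v : V q) : D (q + 1) (false, u) (false, v) = D q u v := rfl
theorem D_tt (q : ℕ) (u v : V q) : D (q + 1) (true, u) (true, v) = - D q u v := rfl
theorem D_tf (q : ℕ) (u v : V q) : D (q + 1) (true, u) (false, v) = if u = v then 1 else 0 := rfl
theorem D_ft (q : ℕ) (u v : V q) : D (q + 1) (false, u) (true, v) = 0 := rfl

theorem sum_succ {M : Type*} [AddCommMonoid M] (q : ℕ) (f : V (q + 1) → M) :
    ∑ x, f x = ∑ u : V q, f (true, u) + ∑ u : V q, f (false, u) := by
  have h : ∑ x, f x = ∑ x : Bool × V q, f x := rfl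
  rw [h, Fintype.sum_prod_type, Fintype.sum_bool]

theorem wt_t (q : ℕ) (u : V q) : wt (q + 1) (true, u) = 1 + wt q u := rfl
theorem wt_f (q : ℕ) (u : V q) : wt (q + 1) (false, u) = 0 + wt q u := rfl

theorem D_wt : ∀ (q : ℕ) (x y : V q), D q x y ≠ 0 → wt q x = wt q y + 1
  | 0, _, _, h => absurd rfl h
  | q + 1, (true, u), (true, v), h => by
    have := D_wt q u v (by simpa [D_tt] using h)
    rw [wt_t, wt_t]; omega
  | q + 1, (true, u), (false, v), h => by
    rw [D_tf] at h
    have : u = v := by
      by_contra h'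
      simp [h'] at h
    subst this
    rw [wt_t, wt_f]; omega
  | q + 1, (false, u), (false, v), h => by
    have := D_wt q u v (by simpa [D_ff] using h)
    rw [wt_f, wt_f]; omega
  | q + 1, (false, u), (true, v), h => absurd rfl h

theorem D_small : ∀ (q : ℕ) (x y : V q), D q x y = 0 ∨ D q x y = 1 ∨ D q x y = -1
  | 0, _, _ => Or.inl rfl
  | q + 1, (true, u), (true, v) => by
    rw [D_tt]
    rcases D_small q u v with h | h | h <;> simp [h]
  | q + 1, (true, u), (false, v) => by
    rw [D_tf]
    split_ifs <;> simp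
  | q + 1, (false, u), (false, v) => by
    rw [D_ff]
    exact D_small q u v
  | q + 1, (false, u), (true, v) => Or.inl rfl

theorem D_sq : ∀ (q : ℕ) (x z : V q), ∑ y, D q x y * D q y z = 0
  | 0, _, _ => by simp [D]
  | q + 1, (true, u), (true, v) => by
    rw [sum_succ]
    simp only [D_tt, D_tf, D_ft, mul_zero, sum_const_zero, add_zero, neg_mul_neg]
    exact D_sq q u v
  | q + 1, (true, u), (false, v) => by
    rw [sum_succ]
    simp only [D_tt, D_tf, D_ff, mul_ite, ite_mul, one_mul, zero_mul, mul_one, mul_zero]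
    simp
  | q + 1, (false, u), (false, v) => by
    rw [sum_succ]
    simp only [D_ft, D_ff, zero_mul, sum_const_zero, zero_add]
    exact D_sq q u v
  | q + 1, (false, u), (true, v) => by
    rw [sum_succ]
    simp only [D_ft, zero_mul, mul_zero, sum_const_zero, add_zero]

theorem dl_same (q : ℕ) (b : Bool) (u v : V q) (c : ℤ) :
    @ite ℤ (@Eq (V (q + 1)) (b, u) (b, v)) (instDecV (q + 1) (b, u) (b, v)) c 0 =
      if u = v then c else 0 := by
  by_cases h : u = v
  · have h1 : @Eq (V (q + 1)) (b, u) (b, v) := by rw [h]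
    exact (@if_pos _ (instDecV (q + 1) (b, u) (b, v)) h1 ℤ c 0).trans (if_pos h).symm
  · have h1 : ¬ @Eq (V (q + 1)) (b, u) (b, v) := fun h' => h (Prod.mk.inj h').2
    exact (@if_neg _ (instDecV (q + 1) (b, u) (b, v)) h1 ℤ c 0).trans (if_neg h).symm

theorem dl_diff (q : ℕ) (b b' : Bool) (hb : b ≠ b') (u v : V q) (c : ℤ) :
    @ite ℤ (@Eq (V (q + 1)) (b, u) (b', v)) (instDecV (q + 1) (b, u) (b', v)) c 0 = 0 := by
  have h1 : ¬ @Eq (V (q + 1)) (b, u) (b', v) := fun h' => hb (Prod.mk.inj h').1
  exact (@if_neg _ (instDecV (q + 1) (b, u) (b', v)) h1 ℤ c 0)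

theorem D_lap : ∀ (q : ℕ) (x z : V q),
    ∑ y, D q x y * D q z y + ∑ y, D q y x * D q y z = if x = z then (q : ℤ) else 0
  | 0, _, _ => by simp [D]
  | q + 1, (true, u), (true, v) => by
    have ih := D_lap q u v
    rw [sum_succ, sum_succ]
    simp only [D_tt, D_tf, D_ft, neg_mul_neg, mul_zero, sum_const_zero, add_zero, mul_ite, ite_mul,
      mul_one, zero_mul]
    refine Eq.trans ?_ (dl_same q true u v ((q + 1 : ℕ) : ℤ)).symm
    have e2 : ∑ x : V q, (if v = x then (if u = x then (1 : ℤ) else 0) else 0) =
        if u = v then 1 else 0 := by simp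
    rw [e2]
    by_cases h : u = v
    · rw [if_pos h] at ih
      rw [if_pos h, if_pos h]
      push_cast
      linarith
    · rw [if_neg h] at ih
      rw [if_neg h, if_neg h]
      linarith
  | q + 1, (false, u), (false, v) => by
    have ih := D_lap q u v
    rw [sum_succ, sum_succ]
    simp only [D_ff, D_tf, D_ft, mul_zero, sum_const_zero, zero_add, mul_ite, ite_mul,
      mul_one, zero_mul]
    refine Eq.trans ?_ (dl_same q false u v ((q + 1 : ℕ) : ℤ)).symm
    have e2 : ∑ x : V q, (if x = v then (if x = u then (1 : ℤ) else 0) else 0) =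
        if u = v then 1 else 0 := by
      simp [eq_comm]
    rw [e2]
    by_cases h : u = v
    · rw [if_pos h] at ih
      rw [if_pos h, if_pos h]
      push_cast
      linarith
    · rw [if_neg h] at ih
      rw [if_neg h, if_neg h]
      linarith
  | q + 1, (true, u), (false, v) => by
    rw [sum_succ, sum_succ]
    simp only [D_tt, D_ff, D_tf, D_ft, mul_zero, sum_const_zero, zero_add, mul_ite, ite_mul,
      mul_one, zero_mul, one_mul, add_zero]
    refine Eq.trans ?_ (dl_diff q true false (by simp) u v ((q + 1 : ℕ) : ℤ)).symm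
    simp
  | q + 1, (false, u), (true, v) => by
    rw [sum_succ, sum_succ]
    simp only [D_tt, D_ff, D_tf, D_ft, mul_zero, sum_const_zero, zero_add, mul_ite, ite_mul,
      mul_one, zero_mul, one_mul, add_zero]
    refine Eq.trans ?_ (dl_diff q false true (by simp) u v ((q + 1 : ℕ) : ℤ)).symm
    simp

/-- `D Dᵀ` -/
def G (q : ℕ) (x z : V q) : ℤ := ∑ y, D q x y * D q z y

theorem G_symm (q : ℕ) (x z : V q) : G q x z = G q z x := by
  unfold G
  exact sum_congr rfl fun y _ => mul_comm _ _

theorem G_diag : ∀ (q : ℕ) (x : V q), G q x x = wt q x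
  | 0, _ => by simp [G, D, wt]
  | q + 1, (true, u) => by
    have ih := G_diag q u
    unfold G at ih ⊢
    rw [sum_succ, wt_t]
    simp only [D_tt, D_tf, neg_mul_neg, mul_ite, ite_mul, mul_one, mul_zero, zero_mul]
    rw [ih]
    push_cast
    simp
    ring
  | q + 1, (false, u) => by
    have ih := G_diag q u
    unfold G at ih ⊢
    rw [sum_succ, wt_f]
    simp only [D_ft, D_ff, mul_zero, sum_const_zero, zero_add]
    exact ih

theorem G_small : ∀ (q : ℕ) (x z : V q), x ≠ z → G q x z = 0 ∨ G q x z = 1 ∨ G q x z = -1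
  | 0, _, _, h => absurd rfl h
  | q + 1, (true, u), (true, v), h => by
    have h' : u ≠ v := fun h' => h (by rw [h'])
    have ih := G_small q u v h'
    have e : G (q + 1) (true, u) (true, v) = G q u v := by
      unfold G
      rw [sum_succ]
      simp only [D_tt, D_tf, neg_mul_neg, mul_ite, ite_mul, mul_one, mul_zero, zero_mul]
      simp [h']
    rw [e]; exact ih
  | q + 1, (false, u), (false, v), h => by
    have h' : u ≠ v := fun h' => h (by rw [h'])
    have ih := G_small q u v h'
    have e : G (q + 1) (false, u) (false, v) = G q u v := by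
      unfold G
      rw [sum_succ]
      simp only [D_ff, D_ft, mul_zero, sum_const_zero, zero_add]
    rw [e]; exact ih
  | q + 1, (true, u), (false, v), _ => by
    have e : G (q + 1) (true, u) (false, v) = D q v u := by
      unfold G
      rw [sum_succ]
      simp only [D_ff, D_ft, D_tt, D_tf, mul_zero, sum_const_zero, zero_add, ite_mul, one_mul,
        zero_mul]
      simp
    rw [e]; exact D_small q v u
  | q + 1, (false, u), (true, v), _ => by
    have e : G (q + 1) (false, u) (true, v) = D q u v := by
      unfold G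
      rw [sum_succ]
      simp only [D_ff, D_ft, D_tt, D_tf, mul_zero, zero_mul, sum_const_zero, zero_add, mul_ite,
        mul_one]
      simp
    rw [e]; exact D_small q u v

theorem G_wt (q : ℕ) (x z : V q) (h : wt q x ≠ wt q z) : G q x z = 0 := by
  unfold G
  refine sum_eq_zero fun y _ => ?_
  by_contra h'
  have h1 : D q x y ≠ 0 := fun h1 => h' (by rw [h1, zero_mul])
  have h2 : D q z y ≠ 0 := fun h2 => h' (by rw [h2, mul_zero])
  exact h (by rw [D_wt q x y h1, D_wt q z y h2])

/-- `D Dᵀ D = q D` -/
theorem G_D (q : ℕ) (x z : V q) : ∑ y, G q x y * D q y z = q * D q x z := by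
  have h1 : ∀ y, G q x y * D q y z = ∑ w, D q x w * (D q y w * D q y z) := by
    intro y
    unfold G
    rw [sum_mul]
    exact sum_congr rfl fun w _ => mul_assoc _ _ _
  simp only [h1]
  rw [sum_comm]
  have h2 : ∀ w, ∑ y, D q x w * (D q y w * D q y z) =
      D q x w * (if w = z then (q : ℤ) else 0) - ∑ y, D q x w * D q w y * D q z y := by
    intro w
    have := D_lap q w z
    rw [← mul_sum, ← this, mul_add]
    simp only [mul_assoc]
    rw [← mul_sum]
    ring
  simp only [h2]
  rw [sum_sub_distrib, sum_comm]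
  have h3 : ∀ y, ∑ w, D q x w * D q w y * D q z y = 0 := by
    intro y
    rw [← sum_mul, D_sq, zero_mul]
  simp only [h3]
  simp [mul_comm]

/-- `(D Dᵀ)² = q D Dᵀ` on the diagonal -/
theorem G_sq (q : ℕ) (x : V q) : ∑ y, G q x y ^ 2 = q * wt q x := by
  have h1 : ∀ y, G q x y ^ 2 = ∑ z, G q x y * D q y z * D q x z := by
    intro y
    rw [sq]
    nth_rw 2 [G_symm]
    conv_lhs => rw [show G q y x = ∑ z, D q y z * D q x z from rfl]
    rw [mul_sum]
    exact sum_congr rfl fun z _ => by ring
  simp only [h1]
  rw [sum_comm]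
  have h2 : ∀ z, ∑ y, G q x y * D q y z * D q x z = q * (D q x z * D q x z) := by
    intro z
    rw [← sum_mul, G_D]
    ring
  simp only [h2]
  rw [← mul_sum, ← G_diag]
  rfl

theorem card_V0 : Fintype.card (V 0) = 1 := rfl

theorem card_wt : ∀ (q p : ℕ), (∑ x : V q, if wt q x = p then 1 else 0) = q.choose p
  | 0, 0 => by simp [wt, card_V0]
  | 0, p + 1 => by simp [wt]
  | q + 1, 0 => by
    have ih := card_wt q 0
    rw [sum_succ]
    simp only [wt_t, wt_f, zero_add]
    rw [ih]
    have : ∀ u : V q, ¬ (1 + wt q u = 0) := fun u => by omega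
    simp [this]
  | q + 1, p + 1 => by
    have ih := card_wt q (p + 1)
    have ih' := card_wt q p
    rw [sum_succ]
    simp only [wt_t, wt_f, zero_add]
    rw [ih]
    have : ∀ u : V q, (1 + wt q u = p + 1) ↔ wt q u = p := fun u => by omega
    simp only [this]
    rw [ih', Nat.choose_succ_succ]

theorem card_sub (q p : ℕ) : Fintype.card {x : V q // wt q x = p} = q.choose p := by
  rw [Fintype.card_subtype, card_filter]
  exact card_wt q p

/-- sums over the vectors of weight `p` -/
theorem sum_sub {M : Type*} [AddCommMonoid M] (q p : ℕ) (f : V q → M)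
    (h : ∀ x, wt q x ≠ p → f x = 0) : ∑ x : {x : V q // wt q x = p}, f x = ∑ x, f x := by
  rw [← sum_subtype (univ.filter fun x => wt q x = p) (by simp) f]
  rw [sum_filter]
  refine sum_congr rfl fun x _ => ?_
  split_ifs with h'
  · rfl
  · exact (h x h').symm

/-- a template from arbitrary index types -/
theorem mk_template {A B : Type*} [Fintype A] [Fintype B] (p q : ℕ) (E : A → A → ℤ)
    (symm : ∀ a b, E a b = E b a) (diag : ∀ a, E a a = 0)
    (small : ∀ a b, E a b = 0 ∨ E a b = 1 ∨ E a b = -1)
    (deg : ∀ a, ∑ b, E a b ^ 2 = (p : ℤ) * ((q : ℤ) - p))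
    (card : q * Fintype.card B = p * Fintype.card A) (kpos : 0 < Fintype.card A)
    (L : (B → ℝ) →ₗ[ℝ] (A → ℝ)) (inj : Function.Injective L)
    (eig : ∀ f a, ∑ b, (E a b : ℝ) * L f b = ((q : ℝ) - p) * L f a) :
    Nonempty (Template p q) := by
  let eA := Fintype.equivFin A
  let eB := Fintype.equivFin B
  refine ⟨{ k := Fintype.card A
            w := Fintype.card B
            E := fun a b => E (eA.symm a) (eA.symm b)
            symm := fun a b => symm _ _
            diag := fun a => diag _
            small := fun a b => small _ _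
            deg := ?_
            card := card
            kpos := kpos
            L := (LinearMap.funLeft ℝ ℝ eA.symm) ∘ₗ L ∘ₗ (LinearMap.funLeft ℝ ℝ eB)
            inj := ?_
            eig := ?_ }⟩
  · intro a
    rw [← deg (eA.symm a)]
    exact Equiv.sum_comp eA.symm (fun b => E (eA.symm a) b ^ 2)
  · intro f g h
    have h1 : L (f ∘ eB) = L (g ∘ eB) := by
      funext a
      have := congrFun h (eA a)
      have e1 : ∀ f, ((LinearMap.funLeft ℝ ℝ eA.symm) ∘ₗ L ∘ₗ (LinearMap.funLeft ℝ ℝ eB)) f (eA a) =
          L (f ∘ eB) a := by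
        intro f
        change L (f ∘ eB) (eA.symm (eA a)) = L (f ∘ eB) a
        rw [Equiv.symm_apply_apply]
      rw [e1, e1] at this
      exact this
    have h2 := inj h1
    funext b
    have := congrFun h2 (eB.symm b)
    simpa using this
  · intro f a
    have := eig (f ∘ eB) (eA.symm a)
    rw [← Equiv.sum_comp eA.symm] at this
    exact this

theorem templ : TemplStatement := by
  intro p q hp hpq
  obtain ⟨m, rfl⟩ : ∃ m, p = m + 1 := ⟨p - 1, by omega⟩
  obtain ⟨n, rfl⟩ : ∃ n, q = n + 1 := ⟨q - 1, by omega⟩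
  let L : ({z : V n // wt n z = m} → ℝ) →ₗ[ℝ] ({x : V (n + 1) // wt (n + 1) x = m + 1} → ℝ) :=
    { toFun := fun f x => ∑ z : {z : V n // wt n z = m}, f z * (D (n + 1) x (false, z.1) : ℝ)
      map_add' := by
        intro f g
        funext x
        simp only [Pi.add_apply, add_mul, sum_add_distrib]
      map_smul' := by
        intro c f
        funext x
        simp only [Pi.smul_apply, smul_eq_mul, mul_assoc, mul_sum, RingHom.id_apply] }
  refine mk_template (A := {x : V (n + 1) // wt (n + 1) x = m + 1})
    (B := {z : V n // wt n z = m}) (m + 1) (n + 1)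
    (fun x y => G (n + 1) x y - if x = y then ((m : ℤ) + 1) else 0) ?_ ?_ ?_ ?_ ?_ ?_ L ?_ ?_
  · intro a b
    rw [G_symm]
    simp only [eq_comm]
  · intro a
    simp only [if_true]
    rw [G_diag, a.2]
    push_cast
    ring
  · intro a b
    by_cases h : a = b
    · left
      subst h
      simp only [if_true]
      rw [G_diag, a.2]
      push_cast
      ring
    · simp only [h, if_false, sub_zero]
      exact G_small (n + 1) a b (fun h' => h (Subtype.ext h'))
  · intro a
    have h1 : ∀ b : {x : V (n + 1) // wt (n + 1) x = m + 1},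
        (G (n + 1) a b - if a = b then ((m : ℤ) + 1) else 0) ^ 2 =
        G (n + 1) a b ^ 2 - if a = b then ((m : ℤ) + 1) ^ 2 else 0 := by
      intro b
      by_cases h : a = b
      · subst h
        simp only [if_true]
        rw [G_diag, a.2]
        push_cast
        ring
      · simp only [h, if_false, sub_zero]
    simp only [h1]
    rw [sum_sub_distrib, sum_sub (n + 1) (m + 1) (fun b => G (n + 1) a b ^ 2), G_sq, a.2]
    · simp only [sum_ite_eq, mem_univ, if_true]
      push_cast
      ring
    · intro x hx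
      rw [G_wt _ _ _ (by rw [a.2]; exact fun h => hx h.symm)]
      ring
  · rw [card_sub, card_sub]
    have := Nat.add_one_mul_choose_eq n m
    rw [this, mul_comm]
  · rw [card_sub]
    exact Nat.choose_pos hpq.le
  · intro f g h
    funext z
    have hz : wt (n + 1) (true, z.1) = m + 1 := by rw [wt_t, z.2]; ring
    have := congrFun h ⟨(true, z.1), hz⟩
    have key : ∀ f : {z : V n // wt n z = m} → ℝ, L f ⟨(true, z.1), hz⟩ = f z := by
      intro f
      change ∑ y : {z : V n // wt n z = m}, f y * (D (n + 1) (true, z.1) (false, y.1) : ℝ) = f z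
      simp only [D_tf]
      rw [sum_eq_single z]
      · simp
      · intro b _ hb
        have : ¬ z.1 = b.1 := fun h => hb (Subtype.ext h.symm)
        simp [this]
      · simp
    rw [key, key] at this
    exact this
  · intro f a
    have hL : ∀ x : {x : V (n + 1) // wt (n + 1) x = m + 1},
      L f x = ∑ z : {z : V n // wt n z = m}, f z * (D (n + 1) x (false, z.1) : ℝ) := fun x => rfl
    simp only [hL]
    simp only [mul_sum]
    rw [sum_comm]
    refine sum_congr rfl fun z _ => ?_
    have h1 := G_D (n + 1) a (false, z.1)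
    rw [← sum_sub (n + 1) (m + 1)] at h1
    · have h2 : (∑ x : {x : V (n + 1) // wt (n + 1) x = m + 1},
          (G (n + 1) a x : ℝ) * (D (n + 1) x (false, z.1) : ℝ)) =
          ((n + 1 : ℕ) : ℝ) * (D (n + 1) a (false, z.1) : ℝ) := by
        exact_mod_cast h1
      have h3 : ∀ b : {x : V (n + 1) // wt (n + 1) x = m + 1},
          (((G (n + 1) a b - if a = b then ((m : ℤ) + 1) else 0 : ℤ)) : ℝ) *
            (f z * (D (n + 1) b (false, z.1) : ℝ)) =
          f z * ((G (n + 1) a b : ℝ) * (D (n + 1) b (false, z.1) : ℝ)) -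
            (if a = b then f z * (((m : ℝ) + 1) * (D (n + 1) b (false, z.1) : ℝ)) else 0) := by
        intro b
        by_cases h : a = b
        · simp only [h, if_true]
          push_cast
          ring
        · simp only [h, if_false]
          push_cast
          ring
      simp only [h3]
      rw [sum_sub_distrib, ← mul_sum, h2]
      simp only [sum_ite_eq, mem_univ, if_true]
      push_cast
      ring
    · intro x hx
      by_contra h
      have h4 : D (n + 1) x (false, z.1) ≠ 0 := fun h4 => h (by rw [h4, mul_zero])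
      have := D_wt _ _ _ h4
      rw [wt_f, z.2] at this
      exact hx (by omega)

end Pool.Agent.Lib.MP_b9b22b_co.Lin.H82
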